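import Pool.Agent.Y593.LG.PA

/-! Project HG (helper593), part HG-B: scale invariance and derivatives, all even dimensions
(adaptation of the module Y888.HF1 of helper888). -/

set_option autoImplicit false

namespace Pool.Agent.Y576.HGB

open Pool.Agent.H660R3 Real Pool.Agent.Y593.LG Pool.Agent.Y593.LG.A

variable {n : ℕ}

/-- coordinates -/
noncomputable def pj (i : Fin n) : EE n →L[ℝ] ℝ := EuclideanSpace.proj i

theorem pj_apply (i : Fin n) (y : EE n) : pj i y = y i := rfl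

theorem n2_pos {y : EE n} (h : y ≠ 0) : 0 < n2 y := by
  unfold n2
  obtain ⟨i, hi⟩ : ∃ i, y i ≠ 0 := by
    by_contra hcon
    push Not at hcon
    apply h
    ext i
    exact hcon i
  exact Finset.sum_pos' (fun j _ => sq_nonneg _) ⟨i, Finset.mem_univ _, by positivity⟩

theorem n2_smul (c : ℝ) (y : EE n) : n2 (c • y) = c ^ 2 * n2 y := by
  unfold n2
  rw [Finset.mul_sum]
  refine Finset.sum_congr rfl fun i _ => ?_
  simp only [PiLp.smul_apply, smul_eq_mul]
  ring

theorem ip_smul (c : ℝ) (y u : EE n) : ip (c • y) (c • u) = c ^ 2 * ip y u := by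
  unfold ip
  rw [Finset.mul_sum]
  refine Finset.sum_congr rfl fun i _ => ?_
  simp only [PiLp.smul_apply, smul_eq_mul]
  ring

theorem jp_smul (S : CS n) (c : ℝ) (y u : EE n) : jp S (c • y) (c • u) = c ^ 2 * jp S y u := by
  unfold jp
  rw [Finset.mul_sum]
  refine Finset.sum_congr rfl fun i _ => ?_
  simp only [PiLp.smul_apply, smul_eq_mul]
  ring

theorem log2_pos : 0 < Real.log 2 := Real.log_pos (by norm_num)

theorem th_scale (m : ℤ) {y : EE n} (h : y ≠ 0) : th ((2 : ℝ) ^ m • y) = th y + m := by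
  have hl := log2_pos.ne'
  have hc : ((2 : ℝ) ^ m) ^ 2 ≠ 0 := by positivity
  unfold th
  rw [n2_smul, Real.log_mul hc (n2_pos h).ne', Real.log_pow, Real.log_zpow]
  field_simp
  push_cast
  ring

theorem WW_scale (m : ℤ) {y : EE n} (h : y ≠ 0) : WW ((2 : ℝ) ^ m • y) = WW y := by
  unfold WW
  refine Finset.sum_congr rfl fun i _ => ?_
  rw [th_scale m h, n2_smul]
  have e : th y + (m : ℝ) - ((i : ℕ) : ℝ) / n = (th y - ((i : ℕ) : ℝ) / n) + m := by ring
  rw [e, hs_add_int]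
  have hc : (2 : ℝ) ^ m ≠ 0 := by positivity
  have hn := (n2_pos h).ne'
  congr 1
  simp only [PiLp.smul_apply, smul_eq_mul]
  field_simp

theorem bl_scale (S : CS n) (ε : ℝ) (m : ℤ) {y : EE n} (h : y ≠ 0) (u : EE n) :
    bl S ε ((2 : ℝ) ^ m • y) ((2 : ℝ) ^ m • u) = bl S ε y u := by
  unfold bl
  have hc : (2 : ℝ) ^ m ≠ 0 := by positivity
  rw [WW_scale m h, jp_smul, n2_smul, mul_div_mul_left _ _ (pow_ne_zero 2 hc)]

theorem al_scale (m : ℤ) {y : EE n} (h : y ≠ 0) (u : EE n) :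
    al ((2 : ℝ) ^ m • y) ((2 : ℝ) ^ m • u) = al y u := by
  unfold al
  have hc : (2 : ℝ) ^ m ≠ 0 := by positivity
  rw [ip_smul, n2_smul, mul_left_comm, mul_div_mul_left _ _ (pow_ne_zero 2 hc)]

/-- the functional `⟨y, ·⟩` -/
noncomputable def PP (y : EE n) : EE n →L[ℝ] ℝ := ∑ i : Fin n, y i • pj i

theorem PP_apply (y u : EE n) : PP y u = ip y u := by
  unfold PP ip
  simp only [FunLike.coe_sum, Finset.sum_apply, smul_apply, smul_eq_mul, pj_apply]

theorem sq_hasFDerivAt (i : Fin n) (y : EE n) :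
    HasFDerivAt (fun z : EE n => z i ^ 2) ((2 * y i) • pj i) y := by
  have h := ((pj i).hasFDerivAt (x := y)).pow 2
  refine (h.congr_fderiv ?_)
  ext u
  simp [pj_apply]

theorem n2_hasFDerivAt (y : EE n) : HasFDerivAt n2 ((2 : ℝ) • PP y) y := by
  have h := HasFDerivAt.fun_sum (u := Finset.univ) fun (i : Fin n) _ => sq_hasFDerivAt i y
  refine (h.congr_fderiv ?_)
  ext u
  simp only [FunLike.coe_sum, Finset.sum_apply, smul_apply, smul_eq_mul, pj_apply,
    PP_apply, ip, Finset.mul_sum]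
  refine Finset.sum_congr rfl fun i _ => ?_
  ring

theorem inv_hasFDerivAt {y : EE n} (h : y ≠ 0) :
    HasFDerivAt (fun z : EE n => (n2 z)⁻¹) ((-(n2 y ^ 2)⁻¹) • ((2 : ℝ) • PP y)) y :=
  (hasDerivAt_inv (n2_pos h).ne').comp_hasFDerivAt y (n2_hasFDerivAt y)

theorem th_hasFDerivAt' {y : EE n} (h : y ≠ 0) :
    HasFDerivAt th ((Real.log 2 * n2 y)⁻¹ • PP y) y := by
  have h1 := ((n2_hasFDerivAt y).log (n2_pos h).ne').mul_const (2 * Real.log 2)⁻¹
  have e : (th : EE n → ℝ) = fun z => Real.log (n2 z) * (2 * Real.log 2)⁻¹ := by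
    funext z
    unfold th
    rw [div_eq_mul_inv]
  rw [e]
  refine (h1.congr_fderiv ?_)
  have hn := (n2_pos h).ne'
  have hl := log2_pos.ne'
  ext u
  simp only [smul_apply, smul_eq_mul]
  field_simp

theorem th_hasFDerivAt {y : EE n} (h : y ≠ 0) :
    ∃ D : EE n →L[ℝ] ℝ, HasFDerivAt th D y ∧ ∀ u, D u = al y u := by
  refine ⟨_, th_hasFDerivAt' h, fun u => ?_⟩
  simp only [smul_apply, smul_eq_mul, PP_apply]
  unfold al
  rw [div_eq_mul_inv, mul_comm]

theorem WW_hasFDerivAt (hn0 : 0 < n) {y : EE n} (h : y ≠ 0) :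
    ∃ D : EE n →L[ℝ] ℝ, HasFDerivAt WW D y ∧ ∀ u, D u = dW y u := by
  have hC : ∀ i : Fin n, HasFDerivAt (fun z : EE n => hs n (th z - (i : ℕ) / n))
      ((1 - ee n (th y - (i : ℕ) / n)) • ((Real.log 2 * n2 y)⁻¹ • PP y)) y := by
    intro i
    have h1 := (th_hasFDerivAt' h).sub_const (((i : ℕ) : ℝ) / n)
    exact (hasDerivAt_hs hn0 _).comp_hasFDerivAt y h1
  have hT : ∀ i : Fin n, HasFDerivAt
      (fun z : EE n => z i ^ 2 * (n2 z)⁻¹ * hs n (th z - (i : ℕ) / n)) _ y :=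
    fun i => ((sq_hasFDerivAt i y).mul (inv_hasFDerivAt h)).mul (hC i)
  have e : (WW : EE n → ℝ) =
      fun z : EE n => ∑ i : Fin n, z i ^ 2 * (n2 z)⁻¹ * hs n (th z - (i : ℕ) / n) := by
    funext z
    unfold WW
    refine Finset.sum_congr rfl fun i _ => ?_
    rw [div_eq_mul_inv]
  rw [e]
  refine ⟨_, HasFDerivAt.fun_sum (u := Finset.univ) fun i _ => hT i, fun u => ?_⟩
  simp only [FunLike.coe_sum, Finset.sum_apply, dW]
  refine Finset.sum_congr rfl fun i _ => ?_
  have hn := (n2_pos h).ne'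
  have hl := log2_pos.ne'
  simp only [add_apply, smul_apply, smul_eq_mul, pj_apply,
    PP_apply, Pi.mul_apply]
  field_simp
  ring

/-- the functional `z ↦ ⟨Jz, v⟩` -/
noncomputable def JJ (S : CS n) (v : EE n) : EE n →L[ℝ] ℝ :=
  ∑ i : Fin n, (S.s i * v (S.σ i)) • pj i

theorem JJ_apply (S : CS n) (v z : EE n) : JJ S v z = jp S z v := by
  unfold JJ jp
  simp only [FunLike.coe_sum, Finset.sum_apply, smul_apply, smul_eq_mul, pj_apply]
  refine Finset.sum_congr rfl fun i _ => ?_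
  ring

theorem jp_hasFDerivAt (S : CS n) (v y : EE n) :
    HasFDerivAt (fun z : EE n => jp S z v) (JJ S v) y := by
  have e : (fun z : EE n => jp S z v) = fun z => JJ S v z := by
    funext z
    rw [JJ_apply]
  rw [e]
  exact (JJ S v).hasFDerivAt

theorem ip_comm (u v : EE n) : ip v u = ip u v := by
  unfold ip
  refine Finset.sum_congr rfl fun i _ => ?_
  ring

theorem ip_hasFDerivAt (v y : EE n) : HasFDerivAt (fun z : EE n => ip z v) (PP v) y := by
  have e : (fun z : EE n => ip z v) = fun z => PP v z := by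
    funext z
    rw [PP_apply, ip_comm]
  rw [e]
  exact (PP v).hasFDerivAt

theorem bl_fderiv (hn0 : 0 < n) (S : CS n) (ε : ℝ) {y : EE n} (h : y ≠ 0) (u v : EE n) :
    fderiv ℝ (fun z => bl S ε z v) y u = exp (ε * WW y) * (ε * dW y u * (jp S y v / n2 y) +
      (jp S u v / n2 y - 2 * (ip y u * jp S y v) / n2 y ^ 2)) := by
  obtain ⟨D, hD, hD2⟩ := WW_hasFDerivAt hn0 h
  have h1 : HasFDerivAt (fun z => exp (ε * WW z)) (exp (ε * WW y) • (ε • D)) y :=
    (hD.const_mul ε).exp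
  have h2 := h1.mul ((jp_hasFDerivAt S v y).mul (inv_hasFDerivAt h))
  have e : (fun z => bl S ε z v) = fun z => exp (ε * WW z) * (jp S z v * (n2 z)⁻¹) := by
    funext z
    unfold bl
    rw [div_eq_mul_inv]
  have h3 : HasFDerivAt (fun z : EE n => exp (ε * WW z) * (jp S z v * (n2 z)⁻¹)) _ y := h2
  rw [e, h3.fderiv]
  have hn := (n2_pos h).ne'
  simp only [add_apply, smul_apply, smul_eq_mul, hD2,
    PP_apply, JJ_apply, Pi.mul_apply]
  field_simp
  ring

theorem jp_neg (S : CS n) (u v : EE n) : jp S v u = - jp S u v := by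
  unfold jp
  have h := Equiv.sum_comp (Function.Involutive.toPerm S.σ S.inv)
    (fun i => S.s i * v i * u (S.σ i))
  rw [← h, ← Finset.sum_neg_distrib]
  refine Finset.sum_congr rfl fun i _ => ?_
  simp only [Function.Involutive.coe_toPerm, S.inv, S.neg]
  ring

theorem bl_d (hn0 : 0 < n) (S : CS n) (ε : ℝ) {y : EE n} (h : y ≠ 0) (u v : EE n) :
    fderiv ℝ (fun z => bl S ε z v) y u - fderiv ℝ (fun z => bl S ε z u) y v =
      exp (ε * WW y) *
        (ε * (dW y u * (jp S y v / n2 y) - dW y v * (jp S y u / n2 y)) + d0 S y u v) := by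
  rw [bl_fderiv hn0 S ε h u v, bl_fderiv hn0 S ε h v u, jp_neg S u v]
  unfold d0
  ring

theorem al_fderiv {y : EE n} (h : y ≠ 0) (u v : EE n) :
    fderiv ℝ (fun z => al z v) y u = (ip u v * (n2 y)⁻¹ -
      2 * (ip y u * ip y v) * (n2 y ^ 2)⁻¹) * (Real.log 2)⁻¹ := by
  have h2 := ((ip_hasFDerivAt v y).mul (inv_hasFDerivAt h)).mul_const (Real.log 2)⁻¹
  have e : (fun z => al z v) = fun z => ip z v * (n2 z)⁻¹ * (Real.log 2)⁻¹ := by
    funext z
    unfold al
    rw [div_eq_mul_inv, mul_inv]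
    ring
  have h3 : HasFDerivAt (fun z : EE n => ip z v * (n2 z)⁻¹ * (Real.log 2)⁻¹) _ y := h2
  rw [e, h3.fderiv]
  simp only [add_apply, smul_apply, smul_eq_mul,
    PP_apply, ip_comm u v]
  ring

theorem al_d {y : EE n} (h : y ≠ 0) (u v : EE n) :
    fderiv ℝ (fun z => al z v) y u - fderiv ℝ (fun z => al z u) y v = 0 := by
  rw [al_fderiv h u v, al_fderiv h v u, ip_comm u v]
  ring

end Pool.Agent.Y576.HGB
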